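import Pool.Agent.H38.AB.Targets

/-!
Board aab_modules (MP_7ecdd4_nt), row EG: energy of a product of dyadic boxes, from the moments.
-/

set_option autoImplicit false

namespace Pool.Agent.H34.AB

open Pool.Agent.H38.RB Pool.Agent.H38.PS Pool.Agent.H82.RD Pool.Agent.H38.AB Pool.Agent.H23.AF

theorem pf_EG (hHG : Pool.Agent.H23.AF.T_HG) : T_EG := by
  intro G _ _ _ k S B f s n τ hτ hs hS hn hE
  have hτ0 : 0 < τ := by linarith
  have hn1 : ∀ j, (1 : ℝ) ≤ n j := fun j => by exact_mod_cast (hn j).2.1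
  have hn0 : ∀ j, (0 : ℝ) < n j := fun j => lt_of_lt_of_le one_pos (hn1 j)
  -- the exponents
  have hsum : ∑ j, (n j : ℝ)⁻¹ ≤ 1 := by
    rcases Nat.eq_zero_or_pos S with h0 | h0
    · have hk : ∀ j : Fin k, False := by
        intro j
        have h1 : s j ≤ ∑ j, s j := Finset.single_le_sum (fun _ _ => Nat.zero_le _)
          (Finset.mem_univ j)
        have h2 := hs j
        omega
      have : (Finset.univ : Finset (Fin k)) = ∅ := Finset.eq_empty_of_forall_notMem
        fun j _ => hk j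
      rw [this, Finset.sum_empty]
      exact zero_le_one
    · have hS0 : (0 : ℝ) < S := by exact_mod_cast h0
      have h1 : ∀ j, (n j : ℝ)⁻¹ ≤ (s j : ℝ) / S := by
        intro j
        rw [inv_le_iff_one_le_mul₀ (hn0 j), div_mul_eq_mul_div, one_le_div hS0]
        exact_mod_cast (hn j).1
      calc ∑ j, (n j : ℝ)⁻¹ ≤ ∑ j, (s j : ℝ) / S := Finset.sum_le_sum fun j _ => h1 j
        _ = 1 := by
          rw [← Finset.sum_div, div_eq_one_iff_eq hS0.ne', hS]
          push_cast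
          rfl
  have h1 := hHG G k B f Finset.univ n (fun j => (n j : ℝ)⁻¹) (fun _ => 0)
    (fun j _ => ⟨(hn j).2.1, (inv_pos.2 (hn0 j)).le, le_rfl, by
      rw [mul_zero, add_zero]
      exact mul_inv_cancel₀ (hn0 j).ne'⟩)
    (by simpa using hsum)
  rw [Finset.compl_univ, Finset.prod_empty, one_mul] at h1
  refine h1.trans ?_
  have hEn0 : ∀ j, 0 ≤ En (B j) (f j) (n j) := fun j => by
    unfold En
    exact Nat.cast_nonneg _
  have h2 : ∀ j, En (B j) (f j) (n j) ^ ((n j : ℝ)⁻¹) * En (B j) (f j) (n j + 1) ^ (0 : ℝ) ≤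
      (2 ^ s j * ((S : ℝ) + 1)) * τ ^ ((n j : ℝ)⁻¹) := by
    intro j
    rw [Real.rpow_zero, mul_one]
    have hX : En (B j) (f j) (n j) ≤ (2 ^ s j * ((S : ℝ) + 1)) ^ n j * τ := by
      refine (hE j).trans ?_
      refine mul_le_mul_of_nonneg_right ?_ hτ0.le
      rw [mul_pow]
      refine mul_le_mul_of_nonneg_left ?_ (by positivity)
      have h3 : ((n j).factorial : ℝ) ≤ (n j : ℝ) ^ n j := by
        exact_mod_cast Nat.factorial_le_pow (n j)
      refine h3.trans (pow_le_pow_left₀ (hn0 j).le ?_ _)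
      have h4 : (n j : ℝ) ≤ S := by exact_mod_cast (hn j).2.2
      linarith
    calc En (B j) (f j) (n j) ^ ((n j : ℝ)⁻¹)
        ≤ ((2 ^ s j * ((S : ℝ) + 1)) ^ n j * τ) ^ ((n j : ℝ)⁻¹) :=
          Real.rpow_le_rpow (hEn0 j) hX (inv_pos.2 (hn0 j)).le
      _ = _ := by
          rw [Real.mul_rpow (by positivity) hτ0.le,
            Real.pow_rpow_inv_natCast (by positivity) (by have := (hn j).2.1; omega)]
  calc ∏ j, (En (B j) (f j) (n j) ^ ((n j : ℝ)⁻¹) * En (B j) (f j) (n j + 1) ^ (0 : ℝ))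
      ≤ ∏ j, ((2 ^ s j * ((S : ℝ) + 1)) * τ ^ ((n j : ℝ)⁻¹)) := by
        refine Finset.prod_le_prod (fun j _ => ?_) fun j _ => h2 j
        rw [Real.rpow_zero, mul_one]
        exact Real.rpow_nonneg (hEn0 j) _
    _ = 2 ^ S * ((S : ℝ) + 1) ^ k * τ ^ (∑ j, (n j : ℝ)⁻¹) := by
        rw [Finset.prod_mul_distrib, Finset.prod_mul_distrib, Finset.prod_const,
          Finset.card_univ, Fintype.card_fin, Finset.prod_pow_eq_pow_sum, ← hS,
          Real.rpow_sum_of_pos hτ0]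
    _ ≤ 2 ^ S * ((S : ℝ) + 1) ^ k * τ := by
        refine mul_le_mul_of_nonneg_left ?_ (by positivity)
        calc τ ^ (∑ j, (n j : ℝ)⁻¹) ≤ τ ^ (1 : ℝ) := Real.rpow_le_rpow_of_exponent_le hτ hsum
          _ = τ := Real.rpow_one τ

end Pool.Agent.H34.AB
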