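import Pool.Agent.H38.AB.Targets

/-!
Board aab_modules (MP_7ecdd4_nt), row NUM3: the loss is small.
-/

set_option autoImplicit false

namespace Pool.Agent.H34.AB

open Pool.Agent.H38.RB Pool.Agent.H38.PS Pool.Agent.H82.RD Pool.Agent.H38.AB Filter Topology

theorem num3_sub (A a ε : ℝ) (ha : a < 1) (ha0 : 0 ≤ a) (hε : 0 < ε) (hA : 0 ≤ A) :
    ∃ C : ℝ, 0 ≤ C ∧ ∀ L : ℝ, 1 ≤ L → A * L ^ a ≤ ε * L + C := by
  have h1 : Tendsto (fun L : ℝ => A * L ^ (-(1 - a))) atTop (𝓝 (A * 0)) :=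
    (tendsto_rpow_neg_atTop (by linarith)).const_mul A
  rw [mul_zero] at h1
  obtain ⟨L0, hL0⟩ := eventually_atTop.1 (h1.eventually_le_const hε)
  refine ⟨A * (max L0 1) ^ a, by positivity, fun L hL => ?_⟩
  have hLpos : 0 < L := by linarith
  have hεL : 0 ≤ ε * L := by positivity
  have hC : 0 ≤ A * (max L0 1) ^ a := by positivity
  rcases le_total (max L0 1) L with h | h
  · have h2 := hL0 L ((le_max_left _ _).trans h)
    have h3 : A * L ^ a = A * L ^ (-(1 - a)) * L := by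
      have : L ^ a = L ^ (-(1 - a)) * L := by
        conv_rhs => rw [← Real.rpow_one L]
        rw [← Real.rpow_mul hLpos.le, ← Real.rpow_add hLpos]
        congr 1
        ring
      rw [this, mul_assoc]
    rw [h3]
    have h4 := mul_le_mul_of_nonneg_right h2 hLpos.le
    linarith
  · have h2 : L ^ a ≤ (max L0 1) ^ a := Real.rpow_le_rpow hLpos.le h ha0
    have h3 := mul_le_mul_of_nonneg_left h2 hA
    linarith

theorem pf_NUM3 : T_NUM3 := by
  intro K β ε hβ0 hβ hε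
  obtain ⟨C2, hC2, hmain⟩ := num3_sub (16 * K) (β + 1 / 2) ε (by linarith) (by linarith) hε
    (by positivity)
  refine ⟨Real.exp (ε + C2), Real.one_le_exp (by linarith), fun X Ω V hX hΩ hV => ?_⟩
  set l := Real.log X with hl
  have hl0 : 0 < l := Real.log_pos (by linarith)
  have hX0 : 0 < X := by linarith
  set L := l + 1 with hL
  have hL1 : 1 ≤ L := by linarith
  have hL0 : 0 < L := by linarith
  have hV0 : (0 : ℝ) ≤ V := Nat.cast_nonneg V
  set b : ℝ := ((V : ℝ) + 2) * (4 * l + 4) with hb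
  have hb1 : 1 ≤ b := by
    rw [hb]
    nlinarith
  have hb0 : 0 < b := by linarith
  have hhalf : (1 : ℝ) ≤ L ^ (1 / 2 : ℝ) := Real.one_le_rpow hL1 (by norm_num)
  -- the base
  have hlogb : Real.log b ≤ 8 * L ^ (1 / 2 : ℝ) := by
    have h1 : (V : ℝ) + 2 ≤ 3 * Real.exp (2 * l ^ (1 / 2 : ℝ)) := by
      have h2 : 1 ≤ Real.exp (2 * l ^ (1 / 2 : ℝ)) := Real.one_le_exp (by positivity)
      linarith
    have h2 : b ≤ 3 * Real.exp (2 * l ^ (1 / 2 : ℝ)) * (4 * L) := by
      rw [hb]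
      have e : 4 * l + 4 = 4 * L := by rw [hL]; ring
      rw [e]
      exact mul_le_mul_of_nonneg_right h1 (by positivity)
    have h3 : Real.log b ≤ Real.log (3 * Real.exp (2 * l ^ (1 / 2 : ℝ)) * (4 * L)) :=
      Real.log_le_log hb0 h2
    have h4 : Real.log (3 * Real.exp (2 * l ^ (1 / 2 : ℝ)) * (4 * L)) =
        Real.log 3 + 2 * l ^ (1 / 2 : ℝ) + (Real.log 4 + Real.log L) := by
      rw [Real.log_mul (by positivity) (by positivity), Real.log_mul (by norm_num)
        (Real.exp_pos _).ne', Real.log_exp, Real.log_mul (by norm_num) hL0.ne']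
    have h5 : Real.log 3 ≤ 2 := by
      have := Real.log_le_sub_one_of_pos (show (0 : ℝ) < 3 by norm_num)
      linarith
    have h6 : Real.log 4 ≤ 2 := by
      have h7 : Real.log 4 = 2 * Real.log 2 := by
        rw [show (4 : ℝ) = 2 ^ 2 by norm_num, Real.log_pow]
        norm_num
      have h8 := Real.log_le_sub_one_of_pos (show (0 : ℝ) < 2 by norm_num)
      rw [h7]
      linarith
    have h7 : Real.log L ≤ L ^ (1 / 2 : ℝ) / (1 / 2) :=
      Real.log_le_rpow_div hL0.le (by norm_num)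
    have h8 : l ^ (1 / 2 : ℝ) ≤ L ^ (1 / 2 : ℝ) :=
      Real.rpow_le_rpow hl0.le (by linarith) (by norm_num)
    rw [h4] at h3
    have h9 : L ^ (1 / 2 : ℝ) / (1 / 2) = 2 * L ^ (1 / 2 : ℝ) := by ring
    rw [h9] at h7
    linarith
  have hlogb0 : 0 ≤ Real.log b := Real.log_nonneg hb1
  -- the exponent
  have hexp : ((K * (Ω + 1) : ℕ) : ℝ) ≤ K * (2 * L ^ β) := by
    push_cast
    refine mul_le_mul_of_nonneg_left ?_ (Nat.cast_nonneg K)
    have h1 : l ^ β ≤ L ^ β := Real.rpow_le_rpow hl0.le (by linarith) hβ0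
    have h2 : 1 ≤ L ^ β := Real.one_le_rpow hL1 hβ0
    linarith
  have hLo : Lo K X Ω V = Real.exp (((K * (Ω + 1) : ℕ) : ℝ) * Real.log b) := by
    unfold Lo
    rw [← hl, ← hb, Real.exp_nat_mul, Real.exp_log hb0]
  rw [hLo]
  have h1 : ((K * (Ω + 1) : ℕ) : ℝ) * Real.log b ≤ K * (2 * L ^ β) * (8 * L ^ (1 / 2 : ℝ)) :=
    mul_le_mul hexp hlogb hlogb0 (by positivity)
  have h2 : K * (2 * L ^ β) * (8 * L ^ (1 / 2 : ℝ)) = 16 * K * L ^ (β + 1 / 2) := by
    rw [Real.rpow_add hL0]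
    ring
  have h3 := hmain L hL1
  calc Real.exp (((K * (Ω + 1) : ℕ) : ℝ) * Real.log b)
      ≤ Real.exp (ε + C2 + l * ε) := by
        apply Real.exp_le_exp.2
        rw [h2] at h1
        have h4 : ε * L = ε * l + ε := by rw [hL]; ring
        linarith
    _ = Real.exp (ε + C2) * X ^ ε := by
        rw [Real.exp_add, Real.rpow_def_of_pos hX0]

end Pool.Agent.H34.AB
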